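import Pool.Agent.Y875.UE.Stm2

set_option autoImplicit false

/-! Universal Pepin test: the order of the base and primality (job 2876). -/

namespace Pool.Agent.Y674.UE

open Pool.Agent.Y875.UE

theorem two_pow_eq {m d : ℕ} (hd : d ∣ Nat.fermatNumber m) : (2 : ZMod d) ^ (2 ^ m) = -1 := by
  have h1 : ((Nat.fermatNumber m : ℕ) : ZMod d) = 0 := by
    rwa [ZMod.natCast_eq_zero_iff]
  unfold Nat.fermatNumber at h1
  push_cast at h1
  linear_combination h1

theorem three_le {m p : ℕ} (hp : p ∣ Nat.fermatNumber m) (hp1 : p ≠ 1) : 3 ≤ p := by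
  have ho := Nat.odd_fermatNumber m
  have h0 : p ≠ 0 := by
    rintro rfl
    have h2 := Nat.three_le_fermatNumber m
    have := Nat.eq_zero_of_zero_dvd hp
    omega
  have h2 : p ≠ 2 := by
    rintro rfl
    exact (Nat.not_even_iff_odd.mpr ho) (even_iff_two_dvd.mpr hp)
  omega

theorem neg_ne {p : ℕ} (hp : 3 ≤ p) : (-1 : ZMod p) ≠ 1 := by
  have : Fact (2 < p) := ⟨by omega⟩
  exact ZMod.neg_one_ne_one

/-- the converse and the order of the base -/
theorem t_CONV : S_CONV := by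
  intro b m k c hk hkm hc h
  have hc0 : c ≠ 0 := by
    rintro rfl
    exact hc (dvd_zero _)
  obtain ⟨v, hv⟩ : ∃ v, v = padicValNat 2 c := ⟨_, rfl⟩
  rw [← hv]
  obtain ⟨w, hw, hcw⟩ : ∃ w, Odd w ∧ c = 2 ^ v * w := by
    obtain ⟨w, hw⟩ : 2 ^ v ∣ c := by rw [hv]; exact pow_padicValNat_dvd
    refine ⟨w, ?_, hw⟩
    rw [← Nat.not_even_iff_odd]
    rintro ⟨r, hr⟩
    have h1 : ¬ 2 ^ (padicValNat 2 c + 1) ∣ c := pow_succ_padicValNat_not_dvd hc0
    apply h1
    rw [← hv]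
    refine ⟨r, ?_⟩
    rw [pow_succ, mul_assoc]
    rw [hw, hr]
    ring
  have hvk : v < k := by
    by_contra hcon
    exact hc (hcw ▸ (Nat.pow_dvd_pow 2 (not_lt.1 hcon)).trans (dvd_mul_right _ _))
  have hm : m < 2 ^ m := Nat.lt_two_pow_self
  have hd : ∀ d : ℕ, d ∣ Nat.fermatNumber m → (b : ZMod d) ^ (2 ^ (2 ^ m - v - 1)) = -1 := by
    intro d hd
    have h' : (b : ZMod d) ^ (2 ^ (2 ^ m - k)) * 2 ^ (2 ^ (m + 1 - k) * c) = 1 := by
      have h1 := congrArg (ZMod.castHom hd (ZMod d)) h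
      rw [map_mul, map_pow, map_pow, map_intCast, map_one, map_ofNat] at h1
      exact h1
    have h2 := congrArg (· ^ (2 ^ (k - 1 - v))) h'
    simp only [mul_pow, one_pow] at h2
    rw [← pow_mul, ← pow_mul, ← pow_add] at h2
    have e1 : 2 ^ m - k + (k - 1 - v) = 2 ^ m - v - 1 := by omega
    have e2 : 2 ^ (m + 1 - k) * c * 2 ^ (k - 1 - v) = 2 ^ m * w := by
      rw [hcw]
      have e3 : 2 ^ m = 2 ^ (m + 1 - k) * (2 ^ v * 2 ^ (k - 1 - v)) := by
        rw [← pow_add, ← pow_add]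
        congr 1
        omega
      rw [e3]
      ring
    rw [e1, e2, pow_mul, two_pow_eq hd, hw.neg_one_pow] at h2
    linear_combination -h2
  have hord : ∀ d : ℕ, d ∣ Nat.fermatNumber m → d ≠ 1 → orderOf (b : ZMod d) = 2 ^ (2 ^ m - v) := by
    intro d hdd hd1
    have e1 : 2 ^ m - v = (2 ^ m - v - 1) + 1 := by omega
    rw [e1]
    refine orderOf_eq_prime_pow ?_ ?_
    · rw [hd d hdd]
      exact neg_ne (three_le hdd hd1)
    · rw [pow_succ, pow_mul, hd d hdd]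
      ring
  have hF3 := Nat.three_le_fermatNumber m
  refine ⟨?_, hord _ dvd_rfl (by omega)⟩
  by_contra hnp
  have hp : (Nat.minFac (Nat.fermatNumber m)).Prime := Nat.minFac_prime (by omega)
  have hsq := Nat.minFac_sq_le_self (by omega) hnp
  have hdvd := Nat.minFac_dvd (Nat.fermatNumber m)
  obtain ⟨p, hpdef⟩ : ∃ p, p = Nat.minFac (Nat.fermatNumber m) := ⟨_, rfl⟩
  rw [← hpdef] at hp hsq hdvd
  have : Fact p.Prime := ⟨hp⟩
  have hb0 : (b : ZMod p) ≠ 0 := by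
    intro h5
    have h4 := hd p hdvd
    rw [h5, zero_pow (by positivity)] at h4
    exact (neg_ne_zero.mpr one_ne_zero) h4.symm
  have hdvd2 : orderOf (b : ZMod p) ∣ p - 1 := ZMod.orderOf_dvd_card_sub_one hb0
  rw [hord p hdvd hp.one_lt.ne'] at hdvd2
  have hle := Nat.le_of_dvd (by have := hp.two_le; omega) hdvd2
  have h1 : 2 ^ (2 ^ m - v) + 1 ≤ p := by
    have := hp.two_le
    omega
  have h2 : (2 ^ (2 ^ m - v) + 1) ^ 2 ≤ 2 ^ (2 ^ m) + 1 := (Nat.pow_le_pow_left h1 2).trans hsq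
  have h7 : ∀ s : ℕ, 2 ≤ s → 2 * s ≤ 2 ^ s := by
    intro s hs
    induction s, hs using Nat.le_induction with
    | base => norm_num
    | succ s hs ih => rw [pow_succ]; omega
  have hbig := h7 m (by omega)
  have h9 : 2 ^ (2 ^ m) ≤ (2 ^ (2 ^ m - v)) ^ 2 := by
    rw [← pow_mul]
    exact Nat.pow_le_pow_right (by norm_num) (by omega)
  have h10 : 0 < 2 ^ (2 ^ m - v) := by positivity
  nlinarith

/-- a base of large order forces primality -/
theorem t_CONV2 : S_CONV2 := by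
  intro b m v hv h
  have hm : m < 2 ^ m := Nat.lt_two_pow_self
  obtain ⟨n, hn⟩ : ∃ n, 2 ^ m - v = n + 1 := ⟨2 ^ m - v - 1, by omega⟩
  rw [hn] at h
  obtain ⟨F, hF⟩ : ∃ F, F = Nat.fermatNumber m := ⟨_, rfl⟩
  have hF2 : F = 2 ^ (2 ^ m) + 1 := by rw [hF]; rfl
  rw [← hF] at h ⊢
  have h1 : (b : ZMod F) ^ (2 ^ (n + 1)) = 1 := by rw [← h]; exact pow_orderOf_eq_one _
  have h2 : (b : ZMod F) ^ (2 ^ n) ≠ 1 := by
    intro hc
    have h3 := orderOf_dvd_of_pow_eq_one hc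
    rw [h] at h3
    exact absurd (Nat.le_of_dvd (by positivity) h3)
      (not_le.2 (Nat.pow_lt_pow_right (by norm_num) (by omega)))
  -- a prime power
  have h3 : ¬ F ∣ (b ^ (2 ^ n) - 1 : ℤ).natAbs := by
    intro hc
    apply h2
    have h4 : (F : ℤ) ∣ b ^ (2 ^ n) - 1 := by
      rw [← Int.natCast_dvd] at hc
      exact hc
    have h5 : ((b ^ (2 ^ n) - 1 : ℤ) : ZMod F) = 0 := (ZMod.intCast_zmod_eq_zero_iff_dvd _ _).2 h4
    push_cast at h5
    exact sub_eq_zero.1 h5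
  rw [Nat.dvd_iff_prime_pow_dvd_dvd] at h3
  push Not at h3
  obtain ⟨p, s, hp, hps, hnd⟩ := h3
  have hs : 0 < s := by
    rw [Nat.pos_iff_ne_zero]
    rintro rfl
    exact hnd (one_dvd _)
  have hpF : p ∣ F := (dvd_pow_self p hs.ne').trans hps
  have hp3 := three_le (hF ▸ hpF) hp.one_lt.ne'
  have hq1 : (b : ZMod (p ^ s)) ^ (2 ^ (n + 1)) = 1 := by
    have h4 := congrArg (ZMod.castHom hps (ZMod (p ^ s))) h1
    rw [map_pow, map_intCast, map_one] at h4
    exact h4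
  have hq2 : (b : ZMod (p ^ s)) ^ (2 ^ n) ≠ 1 := by
    intro hc
    apply hnd
    have h5 : ((b ^ (2 ^ n) - 1 : ℤ) : ZMod (p ^ s)) = 0 := by
      push_cast
      exact sub_eq_zero.2 hc
    have h6 := (ZMod.intCast_zmod_eq_zero_iff_dvd _ _).1 h5
    rw [Int.natCast_dvd] at h6
    exact h6
  have hord : orderOf (b : ZMod (p ^ s)) = 2 ^ (n + 1) := orderOf_eq_prime_pow hq2 hq1
  have : NeZero (p ^ s) := ⟨(pow_pos hp.pos s).ne'⟩
  have hu : IsUnit (b : ZMod (p ^ s)) := IsUnit.of_pow_eq_one hq1 (by positivity)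
  obtain ⟨y, hy⟩ := hu
  have h4 : 2 ^ (n + 1) ∣ p ^ (s - 1) * (p - 1) := by
    rw [← Nat.totient_prime_pow hp hs, ← ZMod.card_units_eq_totient, ← hord, ← hy, orderOf_units]
    exact orderOf_dvd_card
  have hpo : Nat.Coprime (2 ^ (n + 1)) (p ^ (s - 1)) := by
    refine Nat.Coprime.pow _ _ ?_
    rw [Nat.coprime_primes Nat.prime_two hp]
    omega
  have h5 : 2 ^ (n + 1) ∣ p - 1 := hpo.dvd_of_dvd_mul_left h4
  have h6 : 2 ^ (n + 1) + 1 ≤ p := by
    have := Nat.le_of_dvd (by omega) h5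
    omega
  obtain ⟨c, hc⟩ := hpF
  have hF0 : 0 < F := by rw [hF2]; positivity
  have hc0 : 0 < c := by
    rw [Nat.pos_iff_ne_zero]
    rintro rfl
    omega
  have hcv : c ≤ 2 ^ v := by
    by_contra hcon
    rw [not_le] at hcon
    have h7 : (2 ^ (n + 1) + 1) * (2 ^ v + 1) ≤ p * c := Nat.mul_le_mul h6 hcon
    have h8 : 2 ^ (n + 1) * 2 ^ v = 2 ^ (2 ^ m) := by
      rw [← pow_add]
      congr 1
      omega
    have h9 : 0 < 2 ^ v := by positivity
    have h10 : 0 < 2 ^ (n + 1) := by positivity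
    rw [← hc, hF2] at h7
    nlinarith
  by_cases hc1 : c = 1
  · rw [hc, hc1, mul_one]
    exact hp
  · exfalso
    have hp' : (Nat.minFac c).Prime := Nat.minFac_prime hc1
    obtain ⟨r, hr⟩ : ∃ r, r = Nat.minFac c := ⟨_, rfl⟩
    rw [← hr] at hp'
    have hrc : r ∣ c := by rw [hr]; exact Nat.minFac_dvd c
    have hrF : r ∣ Nat.fermatNumber m := by
      rw [← hF, hc]
      exact hrc.trans (dvd_mul_left _ _)
    have : Fact r.Prime := ⟨hp'⟩
    have hr3 := three_le hrF hp'.one_lt.ne'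
    have ho : orderOf (2 : ZMod r) = 2 ^ (m + 1) := by
      refine orderOf_eq_prime_pow ?_ ?_
      · rw [two_pow_eq hrF]
        exact neg_ne hr3
      · rw [pow_succ, pow_mul, two_pow_eq hrF]
        ring
    have h20 : (2 : ZMod r) ≠ 0 := by
      intro h0
      have h7 := two_pow_eq hrF
      rw [h0, zero_pow (by positivity)] at h7
      exact (neg_ne_zero.mpr one_ne_zero) h7.symm
    have h7 : orderOf (2 : ZMod r) ∣ r - 1 := ZMod.orderOf_dvd_card_sub_one h20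
    rw [ho] at h7
    have h8 := Nat.le_of_dvd (by omega) h7
    have h9 : r ≤ 2 ^ v := (Nat.le_of_dvd hc0 hrc).trans hcv
    have h10 : 2 ^ v ≤ 2 ^ (m + 1) := Nat.pow_le_pow_right (by norm_num) (by omega)
    omega

end Pool.Agent.Y674.UE
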